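import Pool.Agent.Results.MP_5e64e7_nt.IndependentPoints
import Pool.Agent.N375.AV.F

/-!
# The modular Schanuel conjecture with derivatives at points whose heights are near the values of additive functions

Let `τ_1, …, τ_p` be nonconstant analytic functions on a connected open set `U` of `ℂ` with values in the upper half-plane, such
that for `i ≠ k` the functions `j(τ_i)` and `j(τ_k)` satisfy no polynomial relation over `ℂ` near some point, and let `w_1, …, w_s`
be analytic functions no nontrivial integral combination of which is constant. For `x` in a number field `K` the conjecture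
(together with Schanuel's conjecture) predicts `3 p + s` algebraically independent numbers among `τ_i`, `j`, `j'`, `j''` at the
`τ_i(x)`, `w_k(x)`, `exp(w_k(x))`, if the points `τ_i(x)` are not quadratic and pairwise not equivalent.

Let `F = f_1 ∘ ⋯ ∘ f_k` be a composition of functions dominated by the largest prime factor: for example additive functions `f`
with `f (q^j) ≤ C q^j` at the prime powers, with different values at different large primes (the sum of the prime factors),
the largest prime factor itself, and Kempner's function. Let `α > 0`, `d ≥ 1` and `κ < 1`. For all number fields `K`, for all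
`m ≤ N` but `K' N exp (- c (log N)^(1 / (k + 1)))`, ALL `x` in `K` whose height `T` satisfies `|T - α F(m)^d| ≤ F(m)^κ` are good:
fixed `3 p + s` of the numbers at `x` satisfy no relation of degree `≤ ω(T) → ∞` and height at most `T^(ω(T))`, with arbitrary
constants in the coefficients. The values of `F` are taken with very large multiplicities and `F(m)` is in general much smaller
than `m`, of the size of a power of `m` with an exponent which has a distribution function.

Proof. The number of the exceptional points of height at most `T` is at most `T^(1 / ω(T))`, by `IndependentPoints`. The tool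
`Pool.Agent.N375.AV` bounds the preimages of such sets under `F`.
-/

set_option autoImplicit false

open Filter NumberField Topology

namespace Pool.Agent.Results.MP_5e64e7_nt.AdditiveValues

open Pool.Agent.N733.TG (Expanding expanding_pow)
open Pool.Agent.N375.AV (PD comp windows_unif pd_additive pd_largest pd_kempner)
open Pool.Agent.Results.MP_5e64e7_nt.IndependentPoints (Name Height j)

/-- The values `τ_i(z)`, `j(τ_i(z))`, `j'(τ_i(z))`, `j''(τ_i(z))` (complex derivatives of `j`), `w_k(z)` and `exp(w_k(z))`. -/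
noncomputable def value {p s : ℕ} (τ : Fin p → ℂ → ℂ) (w : Fin s → ℂ → ℂ) (z : ℂ) : Name p s → ℂ
  | Name.tau i => τ i z
  | Name.j i => j (τ i z)
  | Name.dj i => deriv j (τ i z)
  | Name.ddj i => deriv (deriv j) (τ i z)
  | Name.w k => w k z
  | Name.expw k => Complex.exp (w k z)

/-- An analytic family of points of `ℍ^p × ℂ^s` with one parameter. -/
structure Family {p s : ℕ} (U : Set ℂ) (τ : Fin p → ℂ → ℂ) (w : Fin s → ℂ → ℂ) : Prop where
  pos : 0 < p
  isOpen : IsOpen U
  isPreconnected : IsPreconnected U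
  nonempty : U.Nonempty
  analytic : ∀ i, AnalyticOnNhd ℂ (τ i) U
  im_pos : ∀ i, ∀ z ∈ U, 0 < (τ i z).im
  nonconstant : ∀ i c, ∃ z ∈ U, τ i z ≠ c
  /-- two of the functions `j(τ_i)` satisfy no polynomial relation near some point `x` -/
  independent : ∀ i k, i ≠ k → ∃ x ∈ U, ∀ P : MvPolynomial (Fin 2) ℂ, P ≠ 0 →
    ∃ᶠ t : ℂ in 𝓝 0, MvPolynomial.eval ![j (τ i (x + t)), j (τ k (x + t))] P ≠ 0
  analytic_w : ∀ k, AnalyticOnNhd ℂ (w k) U
  /-- no nontrivial combination with integral coefficients of the `w_k` is constant -/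
  linear : ∀ (m : Fin s → ℤ) (c : ℂ), (∀ z ∈ U, ∑ k, (m k : ℂ) * w k z = c) → m = 0

/-- The height of `x`: the smallest `T` such that `x` is a quotient of two integers of `K` all of whose conjugates are at most
`T` in absolute value. -/
noncomputable def height (K : Type) [Field K] [NumberField K] (x : K) : ℝ := sInf {T : ℝ | Height K T x}

/-- No nonzero polynomial of partial degrees at most `k`, whose coefficients are combinations `∑_{i < k} ξ_i c_i` with integers
`c_i` of `K` all of whose conjugates are at most `T ^ k`, vanishes at the numbers `y`. -/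
def NoRelation (K : Type) [Field K] [NumberField K] (io : K →+* ℂ) (ξ : ℕ → ℂ) (k : ℕ) (T : ℝ) {σ : Type} (y : σ → ℂ) : Prop :=
  ∀ R : MvPolynomial σ ℂ, R ≠ 0 → (∀ a, R.degreeOf a ≤ k) →
    (∀ m, ∃ c : Fin k → 𝓞 K, (∀ i (φ : K →+* ℂ), ‖φ (c i : K)‖ ≤ T ^ k) ∧ R.coeff m = ∑ i : Fin k, ξ i * io (c i : K)) →
    MvPolynomial.eval y R ≠ 0

/-- The point `x` of `K` is good for `k` and `T`: if the degree of `K` is at most `k`, `|x| ≤ k`, and the disc of radius `1 / k`
around `x` is contained in `U`, then the `3 p + s` numbers with the names `c` at `x` satisfy no relation for `k` and `T`. -/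
def Good {p s : ℕ} (U : Set ℂ) (τ : Fin p → ℂ → ℂ) (w : Fin s → ℂ → ℂ) (c : Fin (3 * p + s) → Name p s)
    (K : Type) [Field K] [NumberField K] (io : K →+* ℂ) (ξ : ℕ → ℂ) (k : ℕ) (T : ℝ) (x : K) : Prop :=
  Module.finrank ℚ K ≤ k → ‖io x‖ ≤ k → Metric.ball (io x) (k : ℝ)⁻¹ ⊆ U →
    NoRelation K io ξ k T fun a => value τ w (io x) (c a)

/-- the one-parameter family as a family of `IndependentPoints` -/
theorem Family.lift {p s : ℕ} {U : Set ℂ} {τ : Fin p → ℂ → ℂ} {w : Fin s → ℂ → ℂ} (h : Family U τ w) :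
    IndependentPoints.Family (X := Unit) {z | z () ∈ U} (fun i z => τ i (z ())) (fun k z => w k (z ())) := by
  have hc : Continuous fun z : Unit → ℂ => z () := continuous_apply ()
  have hp : ∀ z : Unit → ℂ, AnalyticAt ℂ (fun z : Unit → ℂ => z ()) z := fun z =>
    (ContinuousLinearMap.proj (R := ℂ) (φ := fun _ : Unit => ℂ) ()).analyticAt z
  refine ⟨h.pos, h.isOpen.preimage hc, ?_, ?_, ?_, ?_, ?_, ?_, ?_, ?_⟩
  · have h1 : {z : Unit → ℂ | z () ∈ U} = (fun (t : ℂ) (_ : Unit) => t) '' U := by
      ext z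
      constructor
      · intro hz
        exact ⟨z (), hz, funext fun _ => rfl⟩
      · rintro ⟨t, ht, rfl⟩
        exact ht
    rw [h1]
    exact h.isPreconnected.image _ (by fun_prop)
  · obtain ⟨t, ht⟩ := h.nonempty
    exact ⟨fun _ => t, ht⟩
  · intro i z hz
    exact AnalyticAt.fun_comp (h.analytic i _ hz) (hp z)
  · intro i z hz
    exact h.im_pos i _ hz
  · intro i c
    obtain ⟨z, hz, hne⟩ := h.nonconstant i c
    exact ⟨fun _ => z, hz, hne⟩
  · intro i k hik
    obtain ⟨x, hx, hP⟩ := h.independent i k hik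
    refine ⟨fun _ => x, hx, fun _ => 1, fun P hP0 => ?_⟩
    simpa using hP P hP0
  · intro k z hz
    exact AnalyticAt.fun_comp (h.analytic_w k _ hz) (hp z)
  · intro m c hm
    exact h.linear m c fun z hz => hm (fun _ => z) hz

theorem height_mono {K : Type} [Field K] [NumberField K] {T T' : ℝ} (h : T ≤ T') {x : K} (hx : Height K T x) : Height K T' x := by
  obtain ⟨a, b, hb, h1, h2, h3⟩ := hx
  exact ⟨a, b, hb, h1.trans h, h2.trans h, h3⟩

theorem height_nonempty (K : Type) [Field K] [NumberField K] (x : K) : {T : ℝ | Height K T x}.Nonempty := by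
  obtain ⟨a, b, hb, hab⟩ := IsFractionRing.div_surjective (A := 𝓞 K) x
  refine ⟨max (house (a : K)) (house (b : K)), a, b, nonZeroDivisors.ne_zero hb, le_max_left _ _, le_max_right _ _, ?_⟩
  exact hab.symm

theorem house_nonneg' {K : Type} [Field K] [NumberField K] (x : K) : 0 ≤ house x := by
  unfold house
  positivity

theorem height_bdd (K : Type) [Field K] [NumberField K] (x : K) : BddBelow {T : ℝ | Height K T x} := by
  refine ⟨0, ?_⟩
  rintro T ⟨a, b, hb, h1, h2, h3⟩
  exact (house_nonneg' _).trans h1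

theorem height_nonneg (K : Type) [Field K] [NumberField K] (x : K) : 0 ≤ height K x := by
  apply le_csInf (height_nonempty K x)
  rintro T ⟨a, b, hb, h1, h2, h3⟩
  exact (house_nonneg' _).trans h1

theorem height_lt {K : Type} [Field K] [NumberField K] {x : K} {T : ℝ} (h : height K x < T) : Height K T x := by
  obtain ⟨T', h1, h2⟩ := exists_lt_of_csInf_lt (height_nonempty K x) h
  exact height_mono h2.le h1

/-- A relation stays a relation for larger `k` and `T`. -/
theorem NoRelation.anti {K : Type} [Field K] [NumberField K] {io : K →+* ℂ} {ξ : ℕ → ℂ} {k k' : ℕ} {T T' : ℝ} (hk : k ≤ k')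
    (hT : 1 ≤ T) (hTT : T ≤ T') {σ : Type} {y : σ → ℂ} (h : NoRelation K io ξ k' T' y) : NoRelation K io ξ k T y := by
  intro R hR hd hc
  refine h R hR (fun a => (hd a).trans hk) fun m => ?_
  obtain ⟨c, hc1, hc2⟩ := hc m
  have h0 : (0 : ℝ) ≤ T' ^ k' := by
    have : (0 : ℝ) ≤ T' := by linarith
    positivity
  refine ⟨fun i => if hi : (i : ℕ) < k then c ⟨i, hi⟩ else 0, fun i φ => ?_, ?_⟩
  · by_cases hi : (i : ℕ) < k
    · simp only [dif_pos hi]
      calc ‖φ (c ⟨i, hi⟩ : K)‖ ≤ T ^ k := hc1 _ φ
        _ ≤ T' ^ k := pow_le_pow_left₀ (by linarith) hTT k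
        _ ≤ T' ^ k' := pow_le_pow_right₀ (by linarith) hk
    · simp only [dif_neg hi]
      simpa using h0
  · rw [hc2]
    have h1 : ∀ (n : ℕ) (g : ℕ → ℂ), (∑ i : Fin n, g i) = ∑ i ∈ Finset.range n, g i := fun n g => Fin.sum_univ_eq_sum_range g n
    have h2 := h1 k fun i => ξ i * (if hi : i < k then io (c ⟨i, hi⟩ : K) else 0)
    have h3 := h1 k' fun i => ξ i * (if hi : i < k then io (c ⟨i, hi⟩ : K) else 0)
    have h4 : (∑ i : Fin k, ξ i * io (c i : K)) = ∑ i : Fin k, ξ i * (if hi : (i : ℕ) < k then io (c ⟨i, hi⟩ : K) else 0) := by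
      refine Finset.sum_congr rfl fun i _ => ?_
      rw [dif_pos i.2]
    have h5 : (∑ i : Fin k', ξ i * io ((if hi : (i : ℕ) < k then c ⟨i, hi⟩ else 0 : 𝓞 K) : K)) =
        ∑ i : Fin k', ξ i * (if hi : (i : ℕ) < k then io (c ⟨i, hi⟩ : K) else 0) := by
      refine Finset.sum_congr rfl fun i _ => ?_
      by_cases hi : (i : ℕ) < k
      · rw [dif_pos hi, dif_pos hi]
      · rw [dif_neg hi, dif_neg hi]
        simp
    rw [h4, h5, h2, h3]
    refine Finset.sum_subset (Finset.range_subset_range.2 hk) fun i _ hi => ?_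
    rw [Finset.mem_range] at hi
    rw [dif_neg hi, mul_zero]

theorem ball_anti {z : ℂ} {k k' : ℕ} (hk0 : 0 < k) (hk : k ≤ k') : Metric.ball z (k' : ℝ)⁻¹ ⊆ Metric.ball z (k : ℝ)⁻¹ := by
  apply Metric.ball_subset_ball
  apply inv_anti₀
  · exact_mod_cast hk0
  · exact_mod_cast hk

/-- the numbers of the exceptional points -/
theorem count {p s : ℕ} {U : Set ℂ} {τ : Fin p → ℂ → ℂ} {w : Fin s → ℂ → ℂ} (h : Family U τ w) :
    ∃ c : Fin (3 * p + s) → Name p s, Function.Injective c ∧
      ∃ ω : ℝ → ℕ, Tendsto ω atTop atTop ∧ Monotone ω ∧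
        ∀ ε : ℝ, 0 < ε → ∃ C : ℝ, ∀ X : ℝ, 1 ≤ X → ∀ (K : Type) [Field K] [NumberField K] (io : K →+* ℂ) (ξ : ℕ → ℂ),
          {x : K | ¬ Good U τ w c K io ξ (ω (height K x + 1)) (height K x + 1) x ∧ height K x ≤ X}.Finite ∧
          ({x : K | ¬ Good U τ w c K io ξ (ω (height K x + 1)) (height K x + 1) x ∧ height K x ≤ X}.ncard : ℝ) ≤
            C * X ^ ε := by
  obtain ⟨c, hc, ω, T₀, hω, hmono, hmain⟩ := IndependentPoints.result Unit Unit p s (fun _ => {z | z () ∈ U})
    (fun _ i z => τ i (z ())) (fun _ k z => w k (z ())) fun _ => h.lift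
  refine ⟨c (), hc (), fun T => if T < T₀ then 0 else ω T, ?_, ?_, ?_⟩
  · refine hω.congr' ?_
    filter_upwards [eventually_ge_atTop T₀] with T hT
    rw [if_neg (not_lt.2 hT)]
  · intro a b hab
    show (if a < T₀ then 0 else ω a) ≤ (if b < T₀ then 0 else ω b)
    by_cases ha : a < T₀
    · rw [if_pos ha]
      exact Nat.zero_le _
    · rw [if_neg ha, if_neg (not_lt.2 ((not_lt.1 ha).trans hab))]
      exact hmono hab
  · intro ε hε
    obtain ⟨T₁, hT₁⟩ := (tendsto_atTop.1 hω (⌈ε⁻¹⌉₊)).exists_forall_of_atTop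
    refine ⟨2 ^ ε + |T₁|, fun X hX K _ _ io ξ => ?_⟩
    have hX0 : (0 : ℝ) < X := by linarith
    have hXe : (1 : ℝ) ≤ X ^ ε := Real.one_le_rpow hX hε.le
    have hC0 : (0 : ℝ) ≤ (2 ^ ε + |T₁|) * X ^ ε := by positivity
    -- facts on a bad point
    have hbad : ∀ x : K, ¬ Good U τ w (c ()) K io ξ (if height K x + 1 < T₀ then 0 else ω (height K x + 1)) (height K x + 1) x →
        T₀ ≤ height K x + 1 ∧ Module.finrank ℚ K ≤ ω (height K x + 1) ∧ ‖io x‖ ≤ ω (height K x + 1) ∧
        Metric.ball (io x) (ω (height K x + 1) : ℝ)⁻¹ ⊆ U ∧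
        ¬ NoRelation K io ξ (ω (height K x + 1)) (height K x + 1) fun a => value τ w (io x) (c () a) := by
      intro x hx
      by_cases hT : height K x + 1 < T₀
      · exfalso
        apply hx
        rw [if_pos hT]
        intro _ _ _ R hR hd hcc
        exfalso
        apply hR
        ext m
        obtain ⟨c', -, hc'⟩ := hcc m
        rw [hc', MvPolynomial.coeff_zero]
        exact Finset.sum_of_isEmpty _
      · rw [if_neg hT] at hx
        unfold Good at hx
        push Not at hx
        obtain ⟨h1, h2, h3, h4⟩ := hx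
        exact ⟨not_lt.1 hT, h1, h2, h3, h4⟩
    by_cases hemp : {x : K | ¬ Good U τ w (c ()) K io ξ (if height K x + 1 < T₀ then 0 else ω (height K x + 1))
        (height K x + 1) x ∧ height K x ≤ X} = ∅
    · rw [hemp]
      refine ⟨Set.finite_empty, ?_⟩
      rw [Set.ncard_empty]
      exact_mod_cast hC0
    · obtain ⟨x₀, hx₀, hx₀X⟩ := Set.nonempty_iff_ne_empty.2 hemp
      obtain ⟨b1, b2, -, -, -⟩ := hbad x₀ hx₀
      have hT : T₀ ≤ X + 1 := by linarith
      obtain ⟨hpos, hK⟩ := hmain (X + 1) hT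
      have hle : ∀ x : K, height K x ≤ X → ω (height K x + 1) ≤ ω (X + 1) := fun x hx => hmono (by linarith)
      obtain ⟨-, hfin, hcard⟩ := hK K (b2.trans (hle x₀ hx₀X)) io (fun i => ξ i)
      -- the map
      have hmap : ∀ x ∈ {x : K | ¬ Good U τ w (c ()) K io ξ (if height K x + 1 < T₀ then 0 else ω (height K x + 1))
        (height K x + 1) x ∧ height K x ≤ X}, (fun _ : Unit × Unit => x) ∈
          IndependentPoints.Exceptional (IndependentPoints.Product fun _ : Unit => {z : Unit → ℂ | z () ∈ U})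
            (fun z (q : Unit × Fin (3 * p + s)) => IndependentPoints.value (fun i z => τ i (z ())) (fun k z => w k (z ()))
              (fun j : Unit => z (q.1, j)) (c q.1 q.2)) K io (ω (X + 1)) (fun i => ξ i) (X + 1) := by
        rintro x ⟨hx, hxX⟩
        obtain ⟨e1, e2, e3, e4, e5⟩ := hbad x hx
        have hω0 : 0 < ω (height K x + 1) := (hmain _ e1).1
        have hn := height_nonneg K x
        refine ⟨fun _ => height_lt (by linarith), ⟨?_, ?_⟩, ?_⟩
        · show ‖fun _ : Unit × Unit => io x‖ ≤ _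
          rw [pi_norm_const]
          exact e3.trans (by exact_mod_cast hle x hxX)
        · intro z hz e
          show z (e, ()) ∈ U
          have h5 : dist (z (e, ())) (io x) ≤ dist z (fun _ : Unit × Unit => io x) :=
            dist_le_pi_dist z (fun _ : Unit × Unit => io x) (e, ())
          exact e4 (ball_anti hω0 (hle x hxX) (lt_of_le_of_lt h5 hz))
        · have e6 : ¬ NoRelation K io ξ (ω (X + 1)) (X + 1) fun a => value τ w (io x) (c () a) :=
            fun hno => e5 (hno.anti (hle x hxX) (by linarith) (by linarith))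
          unfold NoRelation at e6
          push Not at e6
          obtain ⟨R, hR0, hRd, hRc, hRe⟩ := e6
          let u : Fin (3 * p + s) ≃ Unit × Fin (3 * p + s) := (Equiv.punitProd _).symm
          refine ⟨MvPolynomial.rename u R, ?_, ?_, ?_, ?_⟩
          · intro h0
            exact hR0 (MvPolynomial.rename_injective _ u.injective (by rw [h0, map_zero]))
          · rintro ⟨_, a⟩
            have := MvPolynomial.degreeOf_rename_of_injective (p := R) u.injective a
            exact (le_of_eq this).trans (hRd a)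
          · intro m
            obtain ⟨c', hc1, hc2⟩ := hRc (m.comapDomain u u.injective.injOn)
            refine ⟨c', fun i φ => ?_, ?_⟩
            · rw [Real.rpow_natCast]
              exact hc1 i φ
            · rw [← hc2]
              have h6 : m = (m.comapDomain u u.injective.injOn).mapDomain u := by
                rw [Finsupp.mapDomain_comapDomain _ u.injective]
                intro y _
                exact ⟨u.symm y, u.apply_symm_apply y⟩
              conv_lhs => rw [h6]
              rw [MvPolynomial.coeff_rename_mapDomain _ u.injective]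
          · rw [MvPolynomial.eval_rename]
            refine (congrArg (fun y => MvPolynomial.eval y R) (funext fun a => ?_)).trans hRe
            show IndependentPoints.value (fun i z => τ i (z ())) (fun k z => w k (z ())) (fun j : Unit => io x) (c () a) =
              value τ w (io x) (c () a)
            cases c () a <;> rfl
      have hinj : Set.InjOn (fun (x : K) (_ : Unit × Unit) => x) {x : K | ¬ Good U τ w (c ()) K io ξ
          (if height K x + 1 < T₀ then 0 else ω (height K x + 1)) (height K x + 1) x ∧ height K x ≤ X} := by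
        intro x _ y _ hxy
        exact congrFun hxy ((), ())
      refine ⟨Set.Finite.of_finite_image (hfin.subset (Set.image_subset_iff.2 hmap)) hinj, ?_⟩
      have h7 := Set.ncard_le_ncard_of_injOn (fun (x : K) (_ : Unit × Unit) => x) hmap hinj hfin
      have h8 : (X + 1) ^ ((ω (X + 1) : ℝ)⁻¹) ≤ (2 ^ ε + |T₁|) * X ^ ε := by
        have hw0 : (0 : ℝ) < ω (X + 1) := by exact_mod_cast hpos
        rcases le_or_gt T₁ (X + 1) with h9 | h9
        · have h10 := hT₁ (X + 1) h9
          have h11 : ε⁻¹ ≤ ω (X + 1) := (Nat.le_ceil _).trans (by exact_mod_cast h10)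
          have h12 : (ω (X + 1) : ℝ)⁻¹ ≤ ε := inv_le_of_inv_le₀ hε h11
          calc (X + 1) ^ ((ω (X + 1) : ℝ)⁻¹) ≤ (X + 1) ^ ε := Real.rpow_le_rpow_of_exponent_le (by linarith) h12
            _ ≤ (2 * X) ^ ε := Real.rpow_le_rpow (by linarith) (by linarith) hε.le
            _ = 2 ^ ε * X ^ ε := Real.mul_rpow (by norm_num) hX0.le
            _ ≤ _ := mul_le_mul_of_nonneg_right (by linarith [abs_nonneg T₁]) (by linarith)
        · have h12 : (ω (X + 1) : ℝ)⁻¹ ≤ 1 := inv_le_one_of_one_le₀ (by exact_mod_cast hpos)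
          calc (X + 1) ^ ((ω (X + 1) : ℝ)⁻¹) ≤ (X + 1) ^ (1 : ℝ) := Real.rpow_le_rpow_of_exponent_le (by linarith) h12
            _ ≤ |T₁| * 1 := by
              rw [Real.rpow_one, mul_one]
              exact h9.le.trans (le_abs_self _)
            _ ≤ |T₁| * X ^ ε := mul_le_mul_of_nonneg_left hXe (abs_nonneg _)
            _ ≤ _ := mul_le_mul_of_nonneg_right (by
              have : (0 : ℝ) < 2 ^ ε := by positivity
              linarith) (by linarith)
      have h9 : Fintype.card (Unit × Unit) - 1 = 0 := by simp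
      rw [h9, pow_zero, mul_one] at hcard
      have h10 : (({x : K | ¬ Good U τ w (c ()) K io ξ (if height K x + 1 < T₀ then 0 else ω (height K x + 1))
        (height K x + 1) x ∧ height K x ≤ X}.ncard : ℕ) : ℝ) ≤ _ := Nat.cast_le.2 h7
      exact h10.trans (hcard.trans h8)

/-- **The modular Schanuel conjecture with derivatives near the values of additive functions.** Let `τ`, `w` be a family of
points of `ℍ^p × ℂ^s` with one parameter. One can choose `3 p + s` different functions `c_a` among the `4 p + 2 s` functions of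
the family and a nondecreasing `ω → ∞` such that for all compositions `F = f_1 ∘ ⋯ ∘ f_k`, `f_i` dominated by the largest prime
factor, all expanding `G` and all `0 ≤ κ < 1` there are `c' > 0` and `K'` with the following property. For all number fields `K`,
all embeddings, all complex `ξ_0, ξ_1, …`: for all `m ≤ N` but `K' N exp (- c' (log N)^(1 / (k + 1)))`, ALL `x` in `K` whose
height is within `F(m)^κ` of `G (F m)` are good for `T = height x + 1` and `ω T`. The additive functions with `f (q^j) ≤ C q^j`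
which are injective at the large primes, the largest prime factor and Kempner's function are examples of such functions `f_i`,
and `α v^d` with `α > 0`, `d ≥ 1` is an example of `G`. -/
theorem result :
    (∀ (p s : ℕ) (U : Set ℂ) (τ : Fin p → ℂ → ℂ) (w : Fin s → ℂ → ℂ), Family U τ w →
      ∃ c : Fin (3 * p + s) → Name p s, Function.Injective c ∧
      ∃ ω : ℝ → ℕ, Tendsto ω atTop atTop ∧ Monotone ω ∧
      ∀ fs : List (ℕ → ℕ), (∀ f ∈ fs, PD f) → ∀ (G : ℕ → ℝ) (d : ℝ), Expanding G d → ∀ κ : ℝ, 0 ≤ κ → κ < 1 →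
      ∃ c' K' : ℝ, 0 < c' ∧ ∀ (K : Type) [Field K] [NumberField K] (io : K →+* ℂ) (ξ : ℕ → ℂ) (N : ℕ), 1 ≤ N →
      ({m : ℕ | 1 ≤ m ∧ m ≤ N ∧ ¬ ∀ x : K, |height K x - G (comp fs m)| ≤ (comp fs m : ℝ) ^ κ →
        Good U τ w c K io ξ (ω (height K x + 1)) (height K x + 1) x}.ncard : ℝ) ≤
        K' * N * Real.exp (-(c' * Real.log N ^ ((1 : ℝ) / (fs.length + 1))))) ∧
    (∀ f : ℕ → ℕ, (∀ a b : ℕ, Nat.Coprime a b → f (a * b) = f a + f b) →
      (∃ C : ℕ, ∀ q j : ℕ, q.Prime → 1 ≤ j → f (q ^ j) ≤ C * q ^ j) →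
      (∃ P : ℕ, ∀ p q : ℕ, p.Prime → q.Prime → P ≤ p → P ≤ q → f p = f q → p = q) → PD f) ∧
    (PD (fun n => n.primeFactors.sup id) ∧ PD (fun n => sInf {k : ℕ | n ∣ k.factorial})) ∧
    ∀ α d : ℝ, 0 < α → 1 ≤ d → Expanding (fun v => α * (v : ℝ) ^ d) d := by
  refine ⟨fun p s U τ w h => ?_, fun f h2 h3 h4 => pd_additive h2 h3 h4, ⟨pd_largest, pd_kempner⟩,
    fun α d hα hd => expanding_pow hα hd⟩
  obtain ⟨c, hc, ω, hω, hmono, hcount⟩ := count h
  refine ⟨c, hc, ω, hω, hmono, fun fs hfs G d hG κ hκ hκ1 => ?_⟩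
  have hd := hG.one_le
  obtain ⟨ε, hε⟩ : ∃ ε, ε = (1 - κ) / (2 * d) := ⟨_, rfl⟩
  have hε0 : 0 < ε := by
    rw [hε]
    apply div_pos (by linarith) (by linarith)
  have hεd : d * ε = (1 - κ) / 2 := by
    rw [hε]
    field_simp
  obtain ⟨C, hC⟩ := hcount ε hε0
  obtain ⟨c', K', hc', hK'⟩ := windows_unif (T := ℝ) (fun t => t) fs hfs hG (s := ε) (κ := κ) hε0.le hκ
    (by rw [hεd]; linarith) C
  refine ⟨c', K', hc', fun K _ _ io ξ N hN => ?_⟩
  refine le_trans ?_ (hK' (height K '' {x : K | ¬ Good U τ w c K io ξ (ω (height K x + 1)) (height K x + 1) x})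
    (fun X hX => ?_) N hN)
  · have hfin : {m : ℕ | 1 ≤ m ∧ m ≤ N ∧ ∃ t ∈ height K '' {x : K | ¬ Good U τ w c K io ξ (ω (height K x + 1))
        (height K x + 1) x}, |t - G (comp fs m)| ≤ (comp fs m : ℝ) ^ κ}.Finite := by
      apply (Set.finite_Icc 1 N).subset
      intro m hm
      exact ⟨hm.1, hm.2.1⟩
    have h2 : {m : ℕ | 1 ≤ m ∧ m ≤ N ∧ ¬ ∀ x : K, |height K x - G (comp fs m)| ≤ (comp fs m : ℝ) ^ κ →
        Good U τ w c K io ξ (ω (height K x + 1)) (height K x + 1) x} ⊆
        {m : ℕ | 1 ≤ m ∧ m ≤ N ∧ ∃ t ∈ height K '' {x : K | ¬ Good U τ w c K io ξ (ω (height K x + 1))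
        (height K x + 1) x}, |t - G (comp fs m)| ≤ (comp fs m : ℝ) ^ κ} := by
      rintro m ⟨h2, h3, h4⟩
      push Not at h4
      obtain ⟨x, hx, h5⟩ := h4
      exact ⟨h2, h3, _, ⟨x, h5, rfl⟩, hx⟩
    exact_mod_cast Set.ncard_le_ncard h2 hfin
  · obtain ⟨h2, h3⟩ := hC X hX K io ξ
    have h4 : {t : ℝ | t ∈ height K '' {x : K | ¬ Good U τ w c K io ξ (ω (height K x + 1)) (height K x + 1) x} ∧ t ≤ X} ⊆
        height K '' {x : K | ¬ Good U τ w c K io ξ (ω (height K x + 1)) (height K x + 1) x ∧ height K x ≤ X} := by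
      rintro t ⟨⟨x, hx, rfl⟩, ht⟩
      exact ⟨x, ⟨hx, ht⟩, rfl⟩
    refine ⟨(h2.image _).subset h4, le_trans ?_ h3⟩
    have h5 := (Set.ncard_le_ncard h4 (h2.image _)).trans (Set.ncard_image_le h2)
    exact_mod_cast h5

end Pool.Agent.Results.MP_5e64e7_nt.AdditiveValues
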