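import Mathlib
import Pool.Agent.X255.RH.Main
import Pool.Agent.Y771.JQ.Main

/-!
# The modular Schanuel conjecture with derivatives at all roots of almost all integral polynomials

Let `x_1, …, x_m` be algebraic numbers in the unit disc and `z_k = log x_k / (2 π i)`. If no product of powers of the `x_k` is `1`, the modular
Schanuel conjecture with derivatives (and the conjecture of Bertolin) predict that the `4 m + 1` numbers `π`, `log x_k`, `J(x_k)`, `D J(x_k)`,
`D² J(x_k)`, where `J` is the modular invariant as a function of the nome and `D = x d/dx`, are algebraically independent: these numbers and `i`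
generate the field generated by `π`, `z_k`, `j(z_k)`, `j'(z_k)`, `j''(z_k)`.

We consider all the roots of an integral polynomial of degree `g` in the slit disc: all algebraic numbers of degree `g` (and their conjugates) are
of this kind. For almost all polynomials with coefficients at most `T`, the numbers at ALL the roots in the slit disc satisfy together no algebraic
relation over number fields whose degree and whose field degree is at most `ω(T)` and whose height is at most `T ^ ω(T)`, where `ω(T) → ∞`; the
coefficients of the relations may contain arbitrary given complex numbers `ξ_0, ξ_1, …`, for instance the powers of `2 π i`, or the periods and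
logarithms of any countable family.

The proof is an application of `Pool.Agent.X255.RH.main_all` (values of algebraically independent functions at the roots of almost all
polynomials) to the functions `log x`, `J`, `D J`, `D² J`, which are algebraically independent over `ℂ(x)` (Mahler; `Pool.Agent.Y771`).
-/

set_option autoImplicit false

open Polynomial Filter Topology NumberField

namespace Pool.Agent.Results.MP_5e64e7_nt.AllRootsOfPolynomials

/-- The normalised Eisenstein series of weight `4` as a function of the nome. -/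
noncomputable def E4 (q : ℂ) : ℂ := 1 + 240 * ∑' m : ℕ, ((ArithmeticFunction.sigma 3 (m + 1) : ℕ) : ℂ) * q ^ (m + 1)

/-- The normalised Eisenstein series of weight `6` as a function of the nome. -/
noncomputable def E6 (q : ℂ) : ℂ := 1 - 504 * ∑' m : ℕ, ((ArithmeticFunction.sigma 5 (m + 1) : ℕ) : ℂ) * q ^ (m + 1)

/-- The modular invariant `J(q) = q⁻¹ + 744 + 196884 q + ⋯` as a function of the nome. -/
noncomputable def J (q : ℂ) : ℂ := 1728 * E4 q ^ 3 / (E4 q ^ 3 - E6 q ^ 2)

/-- The four numbers `log x`, `J(x)`, `D J(x)`, `D² J(x)`, where `D = x d/dx`. -/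
noncomputable def numbers (x : ℂ) : Fin 4 → ℂ :=
  ![Complex.log x, J x, x * deriv J x, x * deriv (fun u => u * deriv J u) x]

/-- The integral vectors `a = (a_0, …, a_g)` with `|a_i| ≤ T`. -/
noncomputable def box (g T : ℕ) : Finset (Fin (g + 1) → ℤ) := Fintype.piFinset fun _ => Finset.Icc (-(T : ℤ)) (T : ℤ)

/-- The polynomial `a_0 + a_1 x + … + a_g x^g`. -/
noncomputable def poly {g : ℕ} (a : Fin (g + 1) → ℤ) : ℂ[X] := ∑ i, C (a i : ℂ) * X ^ (i : ℕ)

/-- The roots of the polynomial in the set `K`. -/
noncomputable def roots {g : ℕ} (K : Set ℂ) (a : Fin (g + 1) → ℤ) : Finset ℂ := by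
  classical exact (poly a).roots.toFinset.filter fun z => z ∈ K

/-- The points `x` with `|x| ≤ 1 - 1 / (k + 1)` outside the slit `(-1, 0]`. -/
def disc (k : ℕ) : Set ℂ := Complex.slitPlane ∩ Metric.closedBall 0 (1 - 1 / ((k : ℝ) + 1))

/-- The numbers `x q` satisfy no relation of degree at most `k` in each of them with coefficients `∑_{b < k} ξ_b c_b`, where the `c_b` are
integers of a number field of degree at most `k` all of whose conjugates are at most `T ^ k`, except the relations all of whose coefficients
vanish. -/
def NoRelation {Q : Type} [Fintype Q] [DecidableEq Q] (ξ : ℕ → ℂ) (k : ℕ) (T : ℝ) (x : Q → ℂ) : Prop :=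
  ∀ (F : Type) [Field F] [NumberField F], Module.finrank ℚ F ≤ k → ∀ (io : F →+* ℂ)
    (c : (Q → Fin (k + 1)) → Fin k → 𝓞 F), (∀ l b (φ : F →+* ℂ), ‖φ (c l b : F)‖ ≤ T ^ k) →
    ∑ l, (∑ b : Fin k, ξ b * io (c l b : F)) * ∏ q, x q ^ (l q : ℕ) = 0 → ∀ l, ∑ b : Fin k, ξ b * io (c l b : F) = 0

/-- The polynomial with the coefficients `a` has degree `g` and simple roots, and there is no relation between the four numbers at all its roots
in `disc k` together. -/
def Good {g : ℕ} (ξ : ℕ → ℂ) (k : ℕ) (T : ℝ) (a : Fin (g + 1) → ℤ) : Prop :=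
  a (Fin.last g) ≠ 0 ∧ (poly a).Separable ∧
    NoRelation ξ k T fun q : {x // x ∈ roots (disc k) a} × Fin 4 => numbers q.1 q.2

theorem tame (k : ℕ) : Pool.Agent.X255.RH.Tame (disc k) Pool.Agent.Y771.KF.slitDisc := by
  have h1 : (1 : ℝ) - 1 / ((k : ℝ) + 1) < 1 := by
    have : 0 < 1 / ((k : ℝ) + 1) := by positivity
    linarith
  exact Pool.Agent.X255.RH.tame_slit.inter (Pool.Agent.X255.RH.tame_ball h1)

theorem J_eq : J = Pool.Agent.Y771.JQ.qJ := rfl

theorem four_eq {x : ℂ} (hx : x ∈ Pool.Agent.Y771.KF.slitDisc) (i : Fin 4) : numbers x i = Pool.Agent.Y771.KF.fourC x i := by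
  have h1 := Pool.Agent.Y771.JQ.qJ_eq (Pool.Agent.Y771.JQ.slit_sub hx).1
  have h2 := Pool.Agent.Y771.JQ.D_one hx
  have h3 := Pool.Agent.Y771.JQ.D_two hx
  unfold numbers
  rw [J_eq]
  fin_cases i
  · rfl
  · exact h1
  · exact h2
  · exact h3

theorem an (i : Fin 4) : AnalyticOnNhd ℂ (fun x => numbers x i) Pool.Agent.Y771.KF.slitDisc := by
  intro x hx
  refine (Pool.Agent.Y771.KF.fourC_an i x hx).congr ?_
  filter_upwards [Pool.Agent.Y771.JQ.slit_open.mem_nhds hx] with y hy
  exact (four_eq hy i).symm

theorem ind : Pool.Agent.X255.RH.Indep Pool.Agent.Y771.KF.slitDisc (fun (i : Fin 4) (x : ℂ) => numbers x i) := by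
  intro p hp
  refine Pool.Agent.X255.RH.indep_of_aindepS Pool.Agent.Y771.KF.fourC_ind p fun x hx => ?_
  have h1 := hp x hx
  have h2 : (fun i => numbers x i) = fun i => Pool.Agent.Y771.KF.fourC x i := funext fun i => four_eq hx i
  simp only [Pool.Agent.Y890.SP.evF] at h1 ⊢
  rw [h2] at h1
  exact h1

open scoped Classical in
/-- **All roots of almost all polynomials.** For every degree `g ≥ 1` and all complex numbers `ξ_0, ξ_1, …` there is a function `ω(T) → ∞` such
that among the `(2 T + 1)^(g + 1)` integral polynomials with coefficients at most `T` at most the proportion `1 / ω(T)` is not good. -/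
theorem result (g : ℕ) (hg : 0 < g) (ξ : ℕ → ℂ) :
    ∃ ω : ℕ → ℕ, Tendsto ω atTop atTop ∧ Monotone ω ∧ ∀ T : ℕ,
      ω T * ((box g T).filter fun a => ¬ Good ξ (ω T) T a).card ≤ (box g T).card :=
  Pool.Agent.X255.RH.main_all hg Pool.Agent.Y771.KF.preconn_slit Pool.Agent.Y771.JQ.slit_open disc tame an ind ξ

end Pool.Agent.Results.MP_5e64e7_nt.AllRootsOfPolynomials
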