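import Pool.Agent.N207.AX.Few
import Pool.Agent.N207.AX.Conj
import Pool.Agent.N207.AX.Exp
import Pool.Agent.N667.AX.MOD
import Pool.Agent.N301.AX.INDV

/-!
# The modular Schanuel conjecture with derivatives at independent points of arbitrary families

For each `e` in a finite set `E` let `τ_(e1), …, τ_(ep)` (`p ≥ 1`) be nonconstant analytic functions on a connected open
set `U_e` of `ℂ ^ X` (`X` any finite set) with values in the upper half-plane, such that for `i ≠ k` the functions
`j(τ_(ei))` and `j(τ_(ek))` satisfy no polynomial relation with complex coefficients on at least one complex line, and let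
`w_(e1), …, w_(es)` be analytic functions on `U_e` no nontrivial combination of which with integral coefficients is
constant. For `p = 1` the only condition is that `τ_(e1)` is not constant: it can be the coordinate `z`, or a branch of
the inverse function of `j`, or any other function; in the second case the points `τ_e(x_e)` are all points for which the
numbers `j(τ_e)` are in the given number field.

For tuples `(x_e)` of points of `K ^ X` we get `p |E|` points `τ_(ei)(x_e)` of the upper half-plane. If they are not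
quadratic and pairwise not equivalent, their special closure is everything, and the conjecture (together with
Schanuel's conjecture) predicts `(3 p + s) |E|` algebraically independent numbers among `τ_(ei)`, `j`, `j'`, `j''` at these
points, `w_(ek)`, `exp(w_(ek))` at `x_e`. We show that `(3 p + s) |E|` fixed ones among them do not satisfy any relation
of growing degree and height, relative to arbitrary constants, for almost all tuples over all number fields of growing
degree.
-/

set_option autoImplicit false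

open Filter NumberField Topology
open Pool.Agent

namespace Pool.Agent.Results.MP_5e64e7_nt.IndependentPoints

/-- The lattice `ℤ + ℤ τ`. -/
noncomputable def lattice (τ : ℂ) (h : 0 < τ.im) : PeriodPair where
  ω₁ := 1
  ω₂ := τ
  indep := (Y685.LL ⟨τ, h⟩).indep

/-- The modular invariant `j = 1728 g₂³ / (g₂³ - 27 g₃²)` on the upper half-plane. -/
noncomputable def j (τ : ℂ) : ℂ :=
  if h : 0 < τ.im then 1728 * (lattice τ h).g₂ ^ 3 / ((lattice τ h).g₂ ^ 3 - 27 * (lattice τ h).g₃ ^ 2) else 0

/-- The names of the functions. -/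
inductive Name (p s : ℕ) : Type
  | tau : Fin p → Name p s
  | j : Fin p → Name p s
  | dj : Fin p → Name p s
  | ddj : Fin p → Name p s
  | w : Fin s → Name p s
  | expw : Fin s → Name p s

/-- The values `τ_i(z)`, `j(τ_i(z))`, `j'(τ_i(z))`, `j''(τ_i(z))` (complex derivatives of `j`), `w_k(z)` and
`exp(w_k(z))`. -/
noncomputable def value {X : Type} {p s : ℕ} (τ : Fin p → (X → ℂ) → ℂ) (w : Fin s → (X → ℂ) → ℂ) (z : X → ℂ) :
    Name p s → ℂ
  | Name.tau i => τ i z
  | Name.j i => j (τ i z)
  | Name.dj i => deriv j (τ i z)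
  | Name.ddj i => deriv (deriv j) (τ i z)
  | Name.w k => w k z
  | Name.expw k => Complex.exp (w k z)

/-- An analytic family of points of `ℍ^p × ℂ^s`, depending on several parameters. -/
structure Family {X : Type} [Fintype X] {p s : ℕ} (U : Set (X → ℂ)) (τ : Fin p → (X → ℂ) → ℂ)
    (w : Fin s → (X → ℂ) → ℂ) : Prop where
  pos : 0 < p
  isOpen : IsOpen U
  isPreconnected : IsPreconnected U
  nonempty : U.Nonempty
  analytic : ∀ i, AnalyticOnNhd ℂ (τ i) U
  im_pos : ∀ i, ∀ z ∈ U, 0 < (τ i z).im
  nonconstant : ∀ i c, ∃ z ∈ U, τ i z ≠ c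
  /-- two of the functions `j(τ_i)` satisfy no polynomial relation near the point `x` of some complex line -/
  independent : ∀ i k, i ≠ k → ∃ x ∈ U, ∃ v : X → ℂ, ∀ P : MvPolynomial (Fin 2) ℂ, P ≠ 0 →
    ∃ᶠ t : ℂ in 𝓝 0, MvPolynomial.eval ![j (τ i (x + t • v)), j (τ k (x + t • v))] P ≠ 0
  analytic_w : ∀ k, AnalyticOnNhd ℂ (w k) U
  /-- no nontrivial combination with integral coefficients of the `w_k` is constant -/
  linear : ∀ (m : Fin s → ℤ) (c : ℂ), (∀ z ∈ U, ∑ k, (m k : ℂ) * w k z = c) → m = 0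

/-- `x` is a quotient of two integers of `K` all of whose conjugates are at most `T` in absolute value -/
def Height (K : Type) [Field K] [NumberField K] (T : ℝ) (x : K) : Prop :=
  ∃ a b : 𝓞 K, b ≠ 0 ∧ house (a : K) ≤ T ∧ house (b : K) ≤ T ∧ x = a / b

/-- the points of norm at most `k` at distance at least `1 / k` from the complement of `U` -/
def Inner {X : Type} [Fintype X] (U : Set (X → ℂ)) (k : ℕ) : Set (X → ℂ) := {z | ‖z‖ ≤ k ∧ Metric.ball z (k : ℝ)⁻¹ ⊆ U}

/-- `S` is covered by `m` hypersurfaces of degree at most `D` -/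
def Covered {X : Type} (D m : ℕ) (S : Set (X → ℂ)) : Prop :=
  ∃ Φ : Finset (MvPolynomial X ℂ), Φ.card ≤ m ∧ (∀ R ∈ Φ, R ≠ 0 ∧ R.totalDegree ≤ D) ∧
    ∀ x ∈ S, ∃ R ∈ Φ, MvPolynomial.eval x R = 0

/-- **The exceptional points**: `s` in `K ^ X`, of height at most `T`, in the compact set `Inner U k`, such that some
nonzero polynomial `R` of partial degrees at most `k`, whose coefficients are combinations `∑ ξ i * c i` with integers
`c i` of `K` all of whose conjugates are at most `T ^ k`, vanishes at the numbers `v s y` -/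
def Exceptional {X σ : Type} [Fintype X] (U : Set (X → ℂ)) (v : (X → ℂ) → σ → ℂ) (K : Type) [Field K] [NumberField K]
    (io : K →+* ℂ) (k : ℕ) (ξ : Fin k → ℂ) (T : ℝ) : Set (X → K) :=
  {s | (∀ j, Height K T (s j)) ∧ (fun j => io (s j)) ∈ Inner U k ∧
    ∃ R : MvPolynomial σ ℂ, R ≠ 0 ∧ (∀ y, R.degreeOf y ≤ k) ∧
    (∀ m, ∃ c : Fin k → 𝓞 K, (∀ i (φ : K →+* ℂ), ‖φ (c i : K)‖ ≤ T ^ (k : ℝ)) ∧
      R.coeff m = ∑ i, ξ i * io (c i : K)) ∧
    MvPolynomial.eval (v fun j => io (s j)) R = 0}

theorem j_eq {τ : ℂ} (h : 0 < τ.im) : j τ = Y776.jf τ := by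
  have h1 : Y685.LC τ = lattice τ h := by
    rw [Y685.LC, UpperHalfPlane.ofComplex_apply_of_im_pos h]
    rfl
  rw [j, dif_pos h, Y776.jf, h1]

theorem j_ev {τ : ℂ} (h : 0 < τ.im) : j =ᶠ[nhds τ] Y776.jf := by
  filter_upwards [Y776.AxJ.isOpen_H.mem_nhds h] with σ hσ
  exact j_eq hσ

theorem dj_eq {τ : ℂ} (h : 0 < τ.im) : deriv j τ = deriv Y776.jf τ := (j_ev h).deriv_eq

theorem dj_ev {τ : ℂ} (h : 0 < τ.im) : deriv j =ᶠ[nhds τ] deriv Y776.jf := by
  filter_upwards [Y776.AxJ.isOpen_H.mem_nhds h] with σ hσ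
  exact dj_eq hσ

theorem ddj_eq {τ : ℂ} (h : 0 < τ.im) : deriv (deriv j) τ = deriv (deriv Y776.jf) τ := (dj_ev h).deriv_eq

theorem exists_name (X : Type) (p s : ℕ) : ∃ f : Y776.AxJ.Nj p s → Name p s, Function.Injective f ∧
    ∀ (τ : Fin p → (X → ℂ) → ℂ) (w : Fin s → (X → ℂ) → ℂ) (z : X → ℂ), (∀ i, 0 < (τ i z).im) →
      ∀ i : Y776.AxJ.Nj p s, value τ w z (f i) = N207.AX.ym τ w i z := by
  let f : Y776.AxJ.Nj p s → Name p s := fun o => match o with
    | Sum.inl (i, 0) => Name.tau i
    | Sum.inl (i, 1) => Name.j i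
    | Sum.inl (i, 2) => Name.dj i
    | Sum.inl (i, 3) => Name.ddj i
    | Sum.inr (Sum.inl k) => Name.w k
    | Sum.inr (Sum.inr k) => Name.expw k
  let g : Name p s → Y776.AxJ.Nj p s := fun o => match o with
    | Name.tau i => Sum.inl (i, 0)
    | Name.j i => Sum.inl (i, 1)
    | Name.dj i => Sum.inl (i, 2)
    | Name.ddj i => Sum.inl (i, 3)
    | Name.w k => Sum.inr (Sum.inl k)
    | Name.expw k => Sum.inr (Sum.inr k)
  have hg : Function.LeftInverse g f := by
    rintro (⟨i, m⟩ | k | k)
    · fin_cases m <;> rfl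
    · rfl
    · rfl
  refine ⟨f, hg.injective, ?_⟩
  rintro τ w z hz (⟨i, m⟩ | k | k)
  · fin_cases m
    · rfl
    · exact j_eq (hz i)
    · exact dj_eq (hz i)
    · exact ddj_eq (hz i)
  · rfl
  · rfl

/-- independence on a line, for the function `jf` -/
theorem Family.line {X : Type} [Fintype X] {p s : ℕ} {U : Set (X → ℂ)} {τ : Fin p → (X → ℂ) → ℂ}
    {w : Fin s → (X → ℂ) → ℂ} (h : Family U τ w) (i k : Fin p) (hik : i ≠ k) :
    ∃ x ∈ U, ∃ v : X → ℂ, ∀ P : MvPolynomial (Fin 2) ℂ,
      (∀ᶠ t : ℂ in 𝓝 0, MvPolynomial.eval ![Y776.jf (τ i (x + t • v)), Y776.jf (τ k (x + t • v))] P = 0) →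
        P = 0 := by
  obtain ⟨x, hx, v, hv⟩ := h.independent i k hik
  refine ⟨x, hx, v, fun P hP => ?_⟩
  by_contra hne
  have hc : ContinuousAt (fun t : ℂ => x + t • v) 0 := by fun_prop
  have hU : ∀ᶠ t : ℂ in 𝓝 0, x + t • v ∈ U := hc.eventually_mem (by
    simpa using h.isOpen.mem_nhds hx)
  apply hv P hne
  filter_upwards [hP, hU] with t ht htU
  rw [not_not, j_eq (h.im_pos i _ htU), j_eq (h.im_pos k _ htU)]
  exact ht

/-- the product of the sets `U e` -/
def Product {E X : Type} (U : E → Set (X → ℂ)) : Set (E × X → ℂ) := {z | ∀ e, (fun j => z (e, j)) ∈ U e}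

/-- **The modular Schanuel conjecture with derivatives for almost all tuples of points of families.** Let families
`τ e, w e` as above be given for all `e` in a finite set `E`.

One can choose for each `e` `3 p + s` different functions `c_ek` among the `4 p + 2 s` functions of the family `e` such
that there is `ω → ∞` with the following property: for all large `T`, all number fields `K` of degree at most `ω T`, all
embeddings and all complex numbers `ξ i`, `i < ω T`, the points `(x_e)` of `K ^ (E × X)` which are exceptional for the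
`(3 p + s) |E|` numbers `c_ek(x_e)` lie on at most `T ^ (1 / ω T)` hypersurfaces of degree at most `T ^ (1 / ω T)`, and
there are at most `T ^ (1 / ω T) * N ^ (|E| |X| - 1)` of them, `N` being the number of elements of `K` of height at
most `T`. -/
theorem result (E X : Type) [Fintype E] [DecidableEq E] [Nonempty E] [Fintype X] [DecidableEq X] [Nonempty X]
    (p s : ℕ) (U : E → Set (X → ℂ)) (τ : E → Fin p → (X → ℂ) → ℂ) (w : E → Fin s → (X → ℂ) → ℂ)
    (h : ∀ e, Family (U e) (τ e) (w e)) :
    ∃ c : E → Fin (3 * p + s) → Name p s, (∀ e, Function.Injective (c e)) ∧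
      ∃ (ω : ℝ → ℕ) (T₀ : ℝ), Tendsto ω atTop atTop ∧ Monotone ω ∧ ∀ T, T₀ ≤ T → 0 < ω T ∧
        ∀ (K : Type) [Field K] [NumberField K], Module.finrank ℚ K ≤ ω T → ∀ (io : K →+* ℂ) (ξ : Fin (ω T) → ℂ),
          Covered ⌊T ^ ((ω T : ℝ)⁻¹)⌋₊ ⌊T ^ ((ω T : ℝ)⁻¹)⌋₊
            ((fun (s : E × X → K) i => io (s i)) '' Exceptional (Product U)
              (fun z (q : E × Fin (3 * p + s)) => value (τ q.1) (w q.1) (fun j => z (q.1, j)) (c q.1 q.2))
              K io (ω T) ξ T) ∧
          (Exceptional (Product U)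
            (fun z (q : E × Fin (3 * p + s)) => value (τ q.1) (w q.1) (fun j => z (q.1, j)) (c q.1 q.2))
            K io (ω T) ξ T).Finite ∧
          ((Exceptional (Product U)
            (fun z (q : E × Fin (3 * p + s)) => value (τ q.1) (w q.1) (fun j => z (q.1, j)) (c q.1 q.2))
            K io (ω T) ξ T).ncard : ℝ) ≤
            T ^ ((ω T : ℝ)⁻¹) * ({x : K | Height K T x}.ncard : ℝ) ^ (Fintype.card (E × X) - 1) := by
  choose e he hI using fun i => N667.AX.modl N301.AX.indv X p s (U i) (τ i) (w i) (h i).pos (h i).isOpen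
    (h i).isPreconnected (h i).nonempty (h i).analytic (h i).im_pos (h i).nonconstant (h i).line (h i).analytic_w
    (h i).linear
  obtain ⟨f, hf, hv⟩ := exists_name X p s
  refine ⟨fun i k => f (e i k), fun i a b hab => he i (hf hab), ?_⟩
  have han : ∀ i k, AnalyticOnNhd ℂ (N207.AX.ym (τ i) (w i) (e i k)) (U i) := fun i k =>
    N667.AX.ym_an (h i).analytic (h i).im_pos (h i).analytic_w (e i k)
  refine (N207.AX.few_ind (N207.CF.prodU_conn fun i => (h i).isPreconnected)
    (N207.CF.prodU_open fun i => (h i).isOpen) (N207.CF.prodU_ne fun i => (h i).nonempty)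
    (N207.CF.prodF_an (f := fun i k => N207.AX.ym (τ i) (w i) (e i k)) han)
    (N207.AX.ind_prod (fun i => (h i).isOpen) (fun i => (h i).nonempty) hI)).mono fun K _ _ io k ξ T => ?_
  rintro s ⟨h1, h2, R, h3, h4, h5, h6⟩
  refine ⟨h1, h2, R, h3, h4, h5, ?_⟩
  have hk : 0 < k := by
    rcases Nat.eq_zero_or_pos k with rfl | hk
    · refine absurd (MvPolynomial.ext _ _ fun m => ?_) h3
      obtain ⟨c, _, hc⟩ := h5 m
      rw [hc, MvPolynomial.coeff_zero]
      exact Finset.sum_of_isEmpty _
    · exact hk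
  have hzU : ∀ i, (fun j => io (s (i, j))) ∈ U i := Y890.MV.innerM_sub (Product U) hk h2
  rw [← h6]
  congr 1
  congr 1
  funext q
  exact (hv (τ q.1) (w q.1) _ (fun i => (h q.1).im_pos i _ (hzU q.1)) (e q.1 q.2)).symm

end Pool.Agent.Results.MP_5e64e7_nt.IndependentPoints
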