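import Pool.Agent.Results.MP_5e64e7_nt.NearEveryPoint
import Pool.Agent.N603.DA.All

/-!
# The modular Schanuel conjecture with derivatives at algebraic nomes and denominators of good approximations

For an algebraic number `x` in the slit disc let `z = log x / (2πi)`. The numbers `π`, `log x`, `j (z)`, `D j (z)`,
`D² j (z)` (`D = (1/2πi) d/dz`) generate together with `i` the same field as `π`, `z`, `j (z)`, `j' (z)`, `j'' (z)`.
By Nesterenko's theorem the last three are algebraically independent; one expects this for all of them, and over
the fields generated by the corresponding numbers for other nomes.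

Let `α_1, …, α_m` be real numbers. We consider the natural numbers `q` with `‖q α_j - β_j‖ ≤ C q^(-τ)` for all `j`,
`‖x‖` the distance to the nearest integer; for `β = 0`, `C = 1`, `τ = 1 / m` these include the denominators of all
best simultaneous approximations (the denominators of the convergents for `m = 1`). They form a very sparse sequence,
with gaps growing exponentially for almost all `α` if `τ = 1 / m`. Let `G` be a function with steps bounded below by a
positive constant and growth at most `v^e`, for example `a v^e`, and `c_0, c_1, …` complex numbers. We show: for all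
`α` in `ℝ^m` outside a set of Hausdorff dimension at most `(m + κ) / (1 + τ)`, for all number fields `F` in `ℂ`, all
degrees, all powers `A` and all compact sets in the slit disc: for all but finitely many of these `q`, EVERY element
`x` of `F` in the compact set with a height within `q^κ` of `G q` is good: `π` and the four numbers satisfy no
polynomial relation of degree at most `d` over `F` of height at most `T ^ A`, `T` the height of `x`, and the four
numbers satisfy no such relation, not even an approximate one, whose coefficients are combinations of the numbers
`c_0, …, c_(g-1)` with coefficients in `F`. For `τ = 1 / m` and `κ < 1` the bound is less than `m`, so that the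
statement holds for almost all `α`. The numbers `c_i` are arbitrary, for instance all monomials in the numbers
`π`, `log y`, `j`, `D j`, `D² j` for all algebraic nomes `y` of a fixed infinite family.

Proof. The elements of height at most `T` in a compact set which are bad at their own height are `O(T^ε)` in number
for every `ε > 0`, if the exponent `B` of the measure is large (determinants of Bombieri-Pila type,
`AlgebraicNomes`); the `q` for which a bad element has a height near `G q` form a set with `O(X^(κ + ε))` elements up
to `X`, and the `α` with infinitely many approximations with denominators in such a set are covered by few small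
cubes (`Pool.Agent.N671.DA`). There are only countably many number fields in `ℂ`.
-/

set_option autoImplicit false

open NumberField

namespace Pool.Agent.Results.MP_5e64e7_nt.SimultaneousApproximations

open Pool.Agent.N671.DA (Solves Expanding expanding_pow)
open NearEveryPoint (SlitDisc HeightLe Good)

/-- The height of `x`: the least `T` such that `x` is a quotient of two integers of `F` all of whose conjugates have
absolute value at most `T`. -/
noncomputable def height (F : Type) [Field F] [NumberField F] (x : F) : ℝ := sInf {T : ℝ | HeightLe F T x}

/-- **Algebraic nomes and denominators of good approximations.** Let `c_0, c_1, …` be complex numbers, let `G` have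
steps `≥ a > 0` and growth at most `v^e`, `0 ≤ κ ≤ 1`, `β` in `ℝ^m` and `τ > 0`. There is a set `E` in `ℝ^m` of
Hausdorff dimension at most `(m + κ) / (1 + τ)` such that for all `α` outside `E`, all number fields `F` in `ℂ`, all
`g`, `d`, `A` and all compact subsets `L` of the slit disc there is `B` such that for all `C` and all large `q` with
`‖q α_j - β_j‖ ≤ C q^(-τ)` for all `j`: EVERY `x` in `F ∩ L` with `|height x - G q| ≤ q^κ` is good, for the degree
`d`, the height `T ^ A`, the numbers `c_0, …, c_(g-1)` and the measure `T ^ (-B)`, where `T` is the height of `x`.
The infimum in the definition of the height is a minimum, the height of a rational number between `0` and `1` is its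
denominator, and the functions `a v^e` with `a > 0`, `e ≥ 1` are examples of `G`. -/
theorem result :
    (∀ (c : ℕ → ℂ) (G : ℕ → ℝ) (e : ℝ), Expanding G e → ∀ κ : ℝ, 0 ≤ κ → κ ≤ 1 →
      ∀ (m : ℕ) (β : Fin m → ℝ) (τ : ℝ), 0 < τ →
      ∃ E : Set (Fin m → ℝ), dimH E ≤ ENNReal.ofReal ((m + κ) / (1 + τ)) ∧
        ∀ α, α ∉ E → ∀ (F : IntermediateField ℚ ℂ) [NumberField F] (g d : ℕ) (A : ℝ) (L : Set ℂ),
          IsCompact L → L ⊆ SlitDisc → ∃ B : ℝ, ∀ C : ℝ, ∃ Q : ℕ, ∀ q : ℕ, Q ≤ q →
            Solves α β q (C * (q : ℝ) ^ (-τ)) → ∀ x : F, (x : ℂ) ∈ L →
              |height F x - G q| ≤ (q : ℝ) ^ κ →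
                Good F (algebraMap F ℂ) (fun i : Fin g => c i) d (height F x ^ A) (height F x ^ (-B))
                  (fun _ : Fin 1 => x)) ∧
    (∀ (F : Type) [Field F] [NumberField F] (x : F) (T : ℝ), height F x ≤ T ↔ HeightLe F T x) ∧
    (∀ (F : Type) [Field F] [NumberField F] (r : ℚ), 0 < r → r < 1 → height F (r : F) = r.den) ∧
    ∀ a e : ℝ, 0 < a → 1 ≤ e → Expanding (fun v => a * (v : ℝ) ^ e) e := by
  refine ⟨fun c G e hG κ hκ hκ1 m β τ hτ => ?_, fun F _ _ x T => Pool.Agent.N603.DA.ht_le_iff F x T,
    fun F _ _ r h0 h1 => Pool.Agent.N603.DA.ht_rat F r h0 h1, fun a e ha he => expanding_pow ha he⟩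
  obtain ⟨E, hE, h⟩ := Pool.Agent.N603.DA.master_all (fun (i : Fin 4) x => AlgebraicNomes.four x i)
    SlitDisc NearEveryPoint.disc_open (fun i t ht => AlgebraicNomes.four_an i t ht)
    (fun t ht => AlgebraicNomes.locInd t ht) c hG hκ hκ1 β hτ
  refine ⟨E, hE, fun α hα F _ g d A L hL hLS => ?_⟩
  obtain ⟨B, hB⟩ := h α hα F g d A L hL hLS
  refine ⟨B, fun C => ?_⟩
  obtain ⟨Q, hQ⟩ := hB C
  exact ⟨Q, fun q hq hs x hx hG' => hQ q hq hs (fun _ => x) hx hG'⟩

end Pool.Agent.Results.MP_5e64e7_nt.SimultaneousApproximations
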